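import Pool.Agent.H32.RQ.Targets

/-!
`MP_63b6b1_nt`, Hasse principle for almost all pairs of quadratic forms: row NEW (the implicit
function theorem for two quadratic forms).
-/

set_option autoImplicit false

namespace Pool.Agent.H40.RQ

open Finset Pool.Agent.H32.RQ

section

variable {s : ℕ}

theorem dq_sub (f : Mon s → ℝ) (x y : Fin s → ℝ) (j : Fin s) :
    dq f x j - dq f y j = dq f (fun i => x i - y i) j := by
  unfold dq
  rw [← Finset.sum_sub_distrib]
  refine Finset.sum_congr rfl fun p _ => ?_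
  split_ifs <;> ring

theorem dq_bd (f : Mon s → ℝ) (hf : ∀ p, |f p| ≤ 1) (v : Fin s → ℝ) (t : ℝ) (ht : 0 ≤ t)
    (hv : ∀ j, |v j| ≤ t) (j : Fin s) : |dq f v j| ≤ 2 * (md s : ℝ) * t := by
  unfold dq
  have h1 : ∀ p ∈ (Finset.univ : Finset (Mon s)),
      |f p * ((if p.1.1 = j then v p.1.2 else 0) + (if p.1.2 = j then v p.1.1 else 0))| ≤ 2 * t := by
    intro p _
    rw [abs_mul]
    have h2 : |(if p.1.1 = j then v p.1.2 else 0)| ≤ t := by
      split_ifs
      · exact hv _
      · rw [abs_zero]; exact ht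
    have h3 : |(if p.1.2 = j then v p.1.1 else 0)| ≤ t := by
      split_ifs
      · exact hv _
      · rw [abs_zero]; exact ht
    have h4 := (abs_add_le (if p.1.1 = j then v p.1.2 else 0)
      (if p.1.2 = j then v p.1.1 else 0)).trans (add_le_add h2 h3)
    calc |f p| * |(if p.1.1 = j then v p.1.2 else 0) + (if p.1.2 = j then v p.1.1 else 0)|
        ≤ 1 * (t + t) := mul_le_mul (hf p) h4 (abs_nonneg _) zero_le_one
      _ = 2 * t := by ring
  refine (Finset.abs_sum_le_sum_abs _ _).trans ((Finset.sum_le_sum h1).trans ?_)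
  rw [Finset.sum_const, Finset.card_univ, nsmul_eq_mul]
  apply le_of_eq
  ring

theorem qf_sub (f : Mon s → ℝ) (y y' : Fin s → ℝ) :
    qf f y - qf f y' = ∑ j, dq f (fun i => (y i + y' i) / 2) j * (y j - y' j) := by
  unfold qf dq
  simp_rw [Finset.sum_mul]
  rw [Finset.sum_comm, ← Finset.sum_sub_distrib]
  refine Finset.sum_congr rfl fun p _ => ?_
  simp_rw [mul_assoc, add_mul, ite_mul, zero_mul, mul_add]
  rw [Finset.sum_add_distrib, ← Finset.mul_sum, ← Finset.mul_sum]
  rw [Finset.sum_ite_eq, Finset.sum_ite_eq]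
  simp only [Finset.mem_univ, if_true]
  ring

/-- the point with the coordinates `a`, `b` changed -/
noncomputable def pt (x w : Fin s → ℝ) (a b : Fin s) (h : ℝ × ℝ) (j : Fin s) : ℝ :=
  if j = a then x a + h.1 else if j = b then x b + h.2 else x j + w j

theorem pt_a (x w : Fin s → ℝ) (a b : Fin s) (h : ℝ × ℝ) : pt x w a b h a = x a + h.1 := by
  simp [pt]

theorem pt_b (x w : Fin s → ℝ) {a b : Fin s} (hab : a ≠ b) (h : ℝ × ℝ) :
    pt x w a b h b = x b + h.2 := by
  simp [pt, hab.symm]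

theorem pt_o (x w : Fin s → ℝ) {a b j : Fin s} (ha : j ≠ a) (hb : j ≠ b) (h : ℝ × ℝ) :
    pt x w a b h j = x j + w j := by
  simp [pt, ha, hb]

theorem pt_sub (x w : Fin s → ℝ) (a b : Fin s) (h : ℝ × ℝ) (ρ : ℝ) (hw : ∀ j, |w j| ≤ ρ)
    (h1 : |h.1| ≤ ρ) (h2 : |h.2| ≤ ρ) (j : Fin s) : |pt x w a b h j - x j| ≤ ρ := by
  unfold pt
  split_ifs with ha hb
  · rw [ha, add_sub_cancel_left]; exact h1
  · rw [hb, add_sub_cancel_left]; exact h2
  · rw [add_sub_cancel_left]; exact hw j

theorem qf_pt (f : Mon s → ℝ) (x w : Fin s → ℝ) {a b : Fin s} (hab : a ≠ b) (h h' : ℝ × ℝ) :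
    qf f (pt x w a b h) - qf f (pt x w a b h') =
      dq f (fun i => (pt x w a b h i + pt x w a b h' i) / 2) a * (h.1 - h'.1) +
        dq f (fun i => (pt x w a b h i + pt x w a b h' i) / 2) b * (h.2 - h'.2) := by
  rw [qf_sub, Finset.sum_eq_add a b hab]
  · rw [pt_a, pt_a, pt_b x w hab, pt_b x w hab]
    ring
  · rintro c _ ⟨hc1, hc2⟩
    rw [pt_o x w hc1 hc2, pt_o x w hc1 hc2, sub_self, mul_zero]
  · intro hn
    exact absurd (Finset.mem_univ a) hn
  · intro hn
    exact absurd (Finset.mem_univ b) hn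

end

theorem pf_NEW : T_NEW := by
  intro s d hd
  set L : ℝ := 2 * (md s : ℝ) + 1 with hL
  have hL1 : 1 ≤ L := by
    have : (0 : ℝ) ≤ (md s : ℝ) := Nat.cast_nonneg _
    linarith
  have hL0 : 0 < L := by linarith
  have hmd : 2 * (md s : ℝ) ≤ L := by linarith
  have hs0 : (0 : ℝ) ≤ (s : ℝ) := Nat.cast_nonneg _
  set ρ : ℝ := min (1 / 16) (d / (8 * L ^ 2)) with hρ
  have hρ0 : 0 < ρ := lt_min (by norm_num) (by positivity)
  have hρ1 : ρ ≤ 1 / 16 := min_le_left _ _
  have hρ2 : ρ * (8 * L ^ 2) ≤ d := by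
    rw [← le_div_iff₀ (by positivity)]
    exact min_le_right _ _
  set c₁ : ℝ := min ρ (d * ρ / (16 * ((s : ℝ) + 1) * L ^ 2)) with hc
  have hc0 : 0 < c₁ := lt_min hρ0 (by positivity)
  have hc1 : c₁ ≤ ρ := min_le_left _ _
  have hc2 : c₁ * (16 * ((s : ℝ) + 1) * L ^ 2) ≤ d * ρ := by
    rw [← le_div_iff₀ (by positivity)]
    exact min_le_right _ _
  refine ⟨d * ρ / (8 * L), c₁, by positivity, hc0, ?_⟩
  intro f x a b hf hx hq hj w hw
  have hab : a ≠ b := by
    rintro rfl
    have h0 : jm f x a a = 0 := by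
      unfold jm
      ring
    rw [h0, abs_zero] at hj
    linarith
  have hwρ : ∀ j, |w j| ≤ ρ := fun j => (hw j).trans hc1
  set D := jm f x a b with hD
  have hD0 : D ≠ 0 := by
    intro h
    rw [h, abs_zero] at hj
    linarith
  have hDp : 0 < |D| := abs_pos.2 hD0
  have hent : ∀ (i : Fin 2) (j : Fin s), |dq (f i) x j| ≤ L := by
    intro i j
    refine (dq_bd (f i) (hf i) x 1 zero_le_one hx j).trans ?_
    rw [mul_one]
    exact hmd
  -- the functions
  set P : Fin 2 → ℝ × ℝ → ℝ := fun i h => qf (f i) (pt x w a b h) with hP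
  set G : ℝ × ℝ → ℝ × ℝ := fun h =>
    (h.1 - (dq (f 1) x b * P 0 h - dq (f 0) x b * P 1 h) / D,
      h.2 - (dq (f 0) x a * P 1 h - dq (f 1) x a * P 0 h) / D) with hG
  -- the inverse matrix
  have hinv : ∀ u v : ℝ, ∀ t : ℝ, |u| ≤ t → |v| ≤ t →
      |(dq (f 1) x b * u - dq (f 0) x b * v) / D| ≤ 2 * L * t / d ∧
      |(dq (f 0) x a * v - dq (f 1) x a * u) / D| ≤ 2 * L * t / d := by
    intro u v t hu hv
    have ht : 0 ≤ t := (abs_nonneg u).trans hu
    have hgen : ∀ α β u' v' : ℝ, |α| ≤ L → |β| ≤ L → |u'| ≤ t → |v'| ≤ t →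
        |(α * u' - β * v') / D| ≤ 2 * L * t / d := by
      intro α β u' v' h1 h2 h3 h4
      rw [abs_div]
      have h5 : |α * u' - β * v'| ≤ 2 * L * t := by
        have h6 : |α * u'| ≤ L * t := by
          rw [abs_mul]
          exact mul_le_mul h1 h3 (abs_nonneg _) hL0.le
        have h7 : |β * v'| ≤ L * t := by
          rw [abs_mul]
          exact mul_le_mul h2 h4 (abs_nonneg _) hL0.le
        have h8 := abs_sub (α * u') (β * v')
        linarith
      exact div_le_div₀ (by positivity) h5 hd hj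
    exact ⟨hgen _ _ u v (hent 1 b) (hent 0 b) hu hv, hgen _ _ v u (hent 0 a) (hent 1 a) hv hu⟩
  -- contraction
  have hcon : ∀ h h' : ℝ × ℝ, |h.1| ≤ ρ → |h.2| ≤ ρ → |h'.1| ≤ ρ → |h'.2| ≤ ρ → ∀ t : ℝ,
      |h.1 - h'.1| ≤ t → |h.2 - h'.2| ≤ t →
      |(G h).1 - (G h').1| ≤ 1 / 2 * t ∧ |(G h).2 - (G h').2| ≤ 1 / 2 * t := by
    intro h h' h1 h2 h1' h2' t ht1 ht2
    have ht : 0 ≤ t := (abs_nonneg _).trans ht1
    set m : Fin s → ℝ := fun i => (pt x w a b h i + pt x w a b h' i) / 2 with hm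
    have hmx : ∀ j, |x j - m j| ≤ ρ := by
      intro j
      have e1 := pt_sub x w a b h ρ hwρ h1 h2 j
      have e2 := pt_sub x w a b h' ρ hwρ h1' h2' j
      have e3 : x j - m j = -((pt x w a b h j - x j) + (pt x w a b h' j - x j)) / 2 := by
        rw [hm]
        ring
      rw [e3, abs_div, abs_neg, abs_two, div_le_iff₀ two_pos]
      have e4 := abs_add_le (pt x w a b h j - x j) (pt x w a b h' j - x j)
      linarith
    -- the remainders
    set R : Fin 2 → ℝ := fun i => (dq (f i) x a * (h.1 - h'.1) + dq (f i) x b * (h.2 - h'.2)) -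
      (P i h - P i h') with hR
    have hRb : ∀ i, |R i| ≤ 2 * (L * ρ * t) := by
      intro i
      have e1 : R i = dq (f i) (fun j => x j - m j) a * (h.1 - h'.1) +
          dq (f i) (fun j => x j - m j) b * (h.2 - h'.2) := by
        rw [hR]
        simp only [hP]
        rw [qf_pt (f i) x w hab h h', ← dq_sub, ← dq_sub]
        ring
      have e2 : ∀ j, |dq (f i) (fun j => x j - m j) j| ≤ L * ρ := by
        intro j
        refine (dq_bd (f i) (hf i) _ ρ hρ0.le hmx j).trans ?_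
        exact mul_le_mul_of_nonneg_right hmd hρ0.le
      have e3 : |dq (f i) (fun j => x j - m j) a * (h.1 - h'.1)| ≤ L * ρ * t := by
        rw [abs_mul]
        exact mul_le_mul (e2 a) ht1 (abs_nonneg _) (by positivity)
      have e4 : |dq (f i) (fun j => x j - m j) b * (h.2 - h'.2)| ≤ L * ρ * t := by
        rw [abs_mul]
        exact mul_le_mul (e2 b) ht2 (abs_nonneg _) (by positivity)
      rw [e1]
      have e5 := abs_add_le (dq (f i) (fun j => x j - m j) a * (h.1 - h'.1))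
        (dq (f i) (fun j => x j - m j) b * (h.2 - h'.2))
      linarith
    have hDeq : D = dq (f 0) x a * dq (f 1) x b - dq (f 0) x b * dq (f 1) x a := rfl
    have f1 : (G h).1 - (G h').1 = (dq (f 1) x b * R 0 - dq (f 0) x b * R 1) / D := by
      rw [eq_div_iff hD0]
      simp only [hG, hR]
      have e1 : ∀ u v : ℝ, (h.1 - u / D - (h'.1 - v / D)) * D = (h.1 - h'.1) * D - u + v := by
        intro u v
        field_simp
        ring
      rw [e1, hDeq]
      ring
    have f2 : (G h).2 - (G h').2 = (dq (f 0) x a * R 1 - dq (f 1) x a * R 0) / D := by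
      rw [eq_div_iff hD0]
      simp only [hG, hR]
      have e1 : ∀ u v : ℝ, (h.2 - u / D - (h'.2 - v / D)) * D = (h.2 - h'.2) * D - u + v := by
        intro u v
        field_simp
        ring
      rw [e1, hDeq]
      ring
    have f3 := hinv (R 0) (R 1) _ (hRb 0) (hRb 1)
    have f4 : 2 * L * (2 * (L * ρ * t)) / d ≤ 1 / 2 * t := by
      rw [div_le_iff₀ hd]
      have e1 : 2 * L * (2 * (L * ρ * t)) = ρ * (8 * L ^ 2) * (1 / 2 * t) := by ring
      rw [e1, mul_comm (1 / 2 * t) d]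
      exact mul_le_mul_of_nonneg_right hρ2 (by positivity)
    rw [f1, f2]
    exact ⟨f3.1.trans f4, f3.2.trans f4⟩
  -- the value at zero
  have hP0 : ∀ i, |P i (0, 0)| ≤ d * ρ / (4 * L) := by
    intro i
    have e1 := qf_sub (f i) (pt x w a b (0, 0)) x
    have e2 : ∀ j, |pt x w a b (0, 0) j - x j| ≤ c₁ :=
      pt_sub x w a b (0, 0) c₁ hw (by simpa using hc0.le) (by simpa using hc0.le)
    have e3 : |∑ j, dq (f i) (fun l => (pt x w a b (0, 0) l + x l) / 2) j *
        (pt x w a b (0, 0) j - x j)| ≤ s * (L * 2 * c₁) := by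
      refine (Finset.abs_sum_le_sum_abs _ _).trans ?_
      have e4 : ∀ j ∈ (Finset.univ : Finset (Fin s)),
          |dq (f i) (fun l => (pt x w a b (0, 0) l + x l) / 2) j * (pt x w a b (0, 0) j - x j)| ≤
            L * 2 * c₁ := by
        intro j _
        rw [abs_mul]
        refine mul_le_mul ?_ (e2 j) (abs_nonneg _) (by positivity)
        refine (dq_bd (f i) (hf i) _ 2 zero_le_two (fun l => ?_) j).trans
          (mul_le_mul_of_nonneg_right hmd zero_le_two)
        have e5 := e2 l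
        have e6 := hx l
        have e7 : (pt x w a b (0, 0) l + x l) / 2 = (pt x w a b (0, 0) l - x l) / 2 + x l := by ring
        rw [e7]
        refine (abs_add_le _ _).trans ?_
        rw [abs_div, abs_two]
        have e8 : c₁ ≤ 1 := by linarith
        linarith
      refine (Finset.sum_le_sum e4).trans ?_
      rw [Finset.sum_const, Finset.card_univ, Fintype.card_fin, nsmul_eq_mul]
    rw [← e1] at e3
    have e9 : |P i (0, 0)| ≤ |P i (0, 0) - qf (f i) x| + |qf (f i) x| := by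
      have := abs_add_le (P i (0, 0) - qf (f i) x) (qf (f i) x)
      rw [sub_add_cancel] at this
      exact this
    have e10 : (s : ℝ) * (L * 2 * c₁) ≤ d * ρ / (8 * L) := by
      rw [le_div_iff₀ (by positivity)]
      have e11 : (s : ℝ) * (L * 2 * c₁) * (8 * L) = c₁ * (16 * (s : ℝ) * L ^ 2) := by ring
      rw [e11]
      refine le_trans ?_ hc2
      refine mul_le_mul_of_nonneg_left ?_ hc0.le
      have : 0 ≤ L ^ 2 := by positivity
      nlinarith
    have e12 : d * ρ / (4 * L) = d * ρ / (8 * L) + d * ρ / (8 * L) := by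
      field_simp
      ring
    have e13 := hq i
    have e14 : |P i (0, 0) - qf (f i) x| ≤ s * (L * 2 * c₁) := e3
    rw [e12]
    linarith
  have hG0 : |(G (0, 0)).1| ≤ ρ / 2 ∧ |(G (0, 0)).2| ≤ ρ / 2 := by
    have e1 := hinv (P 0 (0, 0)) (P 1 (0, 0)) _ (hP0 0) (hP0 1)
    have e2 : 2 * L * (d * ρ / (4 * L)) / d = ρ / 2 := by
      field_simp
      ring
    rw [e2] at e1
    have e3 : (G (0, 0)).1 = -((dq (f 1) x b * P 0 (0, 0) - dq (f 0) x b * P 1 (0, 0)) / D) := by
      simp only [hG]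
      ring
    have e4 : (G (0, 0)).2 = -((dq (f 0) x a * P 1 (0, 0) - dq (f 1) x a * P 0 (0, 0)) / D) := by
      simp only [hG]
      ring
    rw [e3, e4, abs_neg, abs_neg]
    exact e1
  -- the ball
  set S : Set (ℝ × ℝ) := Metric.closedBall (0, 0) ρ with hS
  have hmem : ∀ h : ℝ × ℝ, h ∈ S ↔ |h.1| ≤ ρ ∧ |h.2| ≤ ρ := by
    intro h
    rw [hS, Metric.mem_closedBall, Prod.dist_eq, max_le_iff, Real.dist_eq, Real.dist_eq, sub_zero,
      sub_zero]
  have hmaps : Set.MapsTo G S S := by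
    intro h hh
    obtain ⟨h1, h2⟩ := (hmem h).1 hh
    have e1 := hcon h (0, 0) h1 h2 (by simpa using hρ0.le) (by simpa using hρ0.le) ρ
      (by simpa using h1) (by simpa using h2)
    rw [hmem]
    have e2 : |(G h).1| ≤ |(G h).1 - (G (0, 0)).1| + |(G (0, 0)).1| := by
      have := abs_add_le ((G h).1 - (G (0, 0)).1) (G (0, 0)).1
      rw [sub_add_cancel] at this
      exact this
    have e3 : |(G h).2| ≤ |(G h).2 - (G (0, 0)).2| + |(G (0, 0)).2| := by
      have := abs_add_le ((G h).2 - (G (0, 0)).2) (G (0, 0)).2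
      rw [sub_add_cancel] at this
      exact this
    constructor
    · linarith [e1.1, hG0.1]
    · linarith [e1.2, hG0.2]
  have hcw : ContractingWith (1 / 2) (hmaps.restrict G S S) := by
    refine ⟨by
      rw [div_lt_one (by norm_num)]
      norm_num, LipschitzWith.of_dist_le_mul ?_⟩
    rintro ⟨h, hh⟩ ⟨h', hh'⟩
    obtain ⟨h1, h2⟩ := (hmem h).1 hh
    obtain ⟨h1', h2'⟩ := (hmem h').1 hh'
    change dist (G h) (G h') ≤ ((1 / 2 : NNReal) : ℝ) * dist h h'
    have e1 := hcon h h' h1 h2 h1' h2' (dist h h')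
      (by rw [← Real.dist_eq]; exact le_max_left _ _)
      (by rw [← Real.dist_eq]; exact le_max_right _ _)
    rw [Prod.dist_eq (x := G h), Real.dist_eq, Real.dist_eq]
    push_cast
    exact max_le e1.1 e1.2
  have h0S : ((0, 0) : ℝ × ℝ) ∈ S := by
    rw [hmem]
    simp [hρ0.le]
  obtain ⟨h, hhS, hfix, -⟩ := ContractingWith.exists_fixedPoint' (f := G)
    (Metric.isClosed_closedBall.isComplete) hmaps hcw h0S (edist_ne_top _ _)
  obtain ⟨h1, h2⟩ := (hmem h).1 hhS
  have hfix' : G h = h := hfix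
  have g1 : dq (f 1) x b * P 0 h - dq (f 0) x b * P 1 h = 0 := by
    have e1 : (G h).1 = h.1 := by rw [hfix']
    have e2 : h.1 - (dq (f 1) x b * P 0 h - dq (f 0) x b * P 1 h) / D = h.1 := e1
    have e3 : (dq (f 1) x b * P 0 h - dq (f 0) x b * P 1 h) / D = 0 := by linarith
    exact (div_eq_zero_iff.1 e3).resolve_right hD0
  have g2 : dq (f 0) x a * P 1 h - dq (f 1) x a * P 0 h = 0 := by
    have e1 : (G h).2 = h.2 := by rw [hfix']
    have e2 : h.2 - (dq (f 0) x a * P 1 h - dq (f 1) x a * P 0 h) / D = h.2 := e1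
    have e3 : (dq (f 0) x a * P 1 h - dq (f 1) x a * P 0 h) / D = 0 := by linarith
    exact (div_eq_zero_iff.1 e3).resolve_right hD0
  have hDeq : D = dq (f 0) x a * dq (f 1) x b - dq (f 0) x b * dq (f 1) x a := rfl
  have k0 : P 0 h = 0 := by
    have e1 : D * P 0 h = 0 := by
      have e2 : D * P 0 h = dq (f 0) x a * (dq (f 1) x b * P 0 h - dq (f 0) x b * P 1 h) +
          dq (f 0) x b * (dq (f 0) x a * P 1 h - dq (f 1) x a * P 0 h) := by
        rw [hDeq]
        ring
      rw [e2, g1, g2]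
      ring
    exact (mul_eq_zero.1 e1).resolve_left hD0
  have k1 : P 1 h = 0 := by
    have e1 : D * P 1 h = 0 := by
      have e2 : D * P 1 h = dq (f 1) x a * (dq (f 1) x b * P 0 h - dq (f 0) x b * P 1 h) +
          dq (f 1) x b * (dq (f 0) x a * P 1 h - dq (f 1) x a * P 0 h) := by
        rw [hDeq]
        ring
      rw [e2, g1, g2]
      ring
    exact (mul_eq_zero.1 e1).resolve_left hD0
  refine ⟨pt x w a b h, fun j ha hb => pt_o x w ha hb h, fun j =>
    (pt_sub x w a b h ρ hwρ h1 h2 j).trans hρ1, fun i => ?_⟩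
  fin_cases i
  · exact k0
  · exact k1

end Pool.Agent.H40.RQ
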